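import Pool.Agent.H6.Gap.Main

/-!
# MP_582b9d_gt, Q1: an affirmative answer

There is a metric space which has an admissible compactification (it even has a zero-dimensional
compactification) but does not have large transfinite dimension.

Definitions used in the statement (file `Pool.Agent.H6.Gap.Defs`):
* `TrIndLE α X` : `trInd X ≤ α`, for an ordinal `α`;
* `FinInd X` : `X` is normal and `Ind X ≤ n` for some natural number `n`;
* `CountDim X` : `X` is the union of a sequence of subspaces `S i` with `FinInd (S i)`.
-/

open Set Topology

namespace Pool.Agent.Results.MP_582b9d_gt.NoLargeTransfinite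

open Pool.Agent.H6.Gap

/-- There are a metric space `X`, a compact Hausdorff space `K` and a dense embedding `e : X → K`
such that `K` is countable-dimensional and every point of `K` outside of the image of `X` has a
neighbourhood of finite large inductive dimension (an admissible compactification), but
`trInd X ≤ α` fails for every ordinal `α`. -/
theorem result : ∃ (X : Type) (_ : MetricSpace X),
    (∃ (K : Type) (_ : TopologicalSpace K) (e : X → K), CompactSpace K ∧ T2Space K ∧
      IsDenseEmbedding e ∧ CountDim K ∧ ∀ y, y ∉ range e → ∃ O ∈ 𝓝 y, FinInd O) ∧
    ¬ ∃ α : Ordinal.{0}, TrIndLE α X :=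
  main

end Pool.Agent.Results.MP_582b9d_gt.NoLargeTransfinite
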